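import Pool.Agent.S15446

/-!
# Recognising unique equality continuation instances of the Post correspondence problem

The set of unique equality continuation instances of PCP is not decidable; it is not even recursively enumerable.
-/

set_option autoImplicit false

namespace Pool.Agent.Results.MP_c472bb_lc.Recognition

open Pool.Agent.Helper247 (UecPcp.Comp UecPcp.app)
open Pool.Agent.Helper247.UecPcp

/-- An instance of PCP with alphabet `A = {0, …, k-1}`: the list of the `k` pairs `(h(c), g(c))`; the words `h(c)`, `g(c)`
are words over the natural numbers (so over a finite alphabet `B ⊂ ℕ`). -/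
abbrev Instance : Type := List (List ℕ × List ℕ)

/-- The morphism `h : A* → B*` of an instance. -/
def h (I : Instance) (u : List (Fin I.length)) : List ℕ := u.flatMap fun c => (I.get c).1

/-- The morphism `g : A* → B*` of an instance. -/
def g (I : Instance) (u : List (Fin I.length)) : List ℕ := u.flatMap fun c => (I.get c).2

/-- `u` and `v` are comparable: one of them is a prefix of the other. -/
def Comparable (u v : List ℕ) : Prop := u <+: v ∨ v <+: u

/-- `I` is a unique equality continuation instance. -/
def IsUEC (I : Instance) : Prop :=
  ∀ (u : List (Fin I.length)) (a b : Fin I.length), a ≠ b →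
    Comparable (h I (u ++ [a])) (g I (u ++ [a])) → Comparable (h I (u ++ [b])) (g I (u ++ [b])) →
      h I u = g I u

/-! ### The transformation of instances -/

/-- every letter is followed by the separator `0` -/
def xr (w : List ℕ) : List ℕ := w.flatMap fun x => [x + 3, 0]
/-- every letter is preceded by the separator `0` -/
def xl (w : List ℕ) : List ℕ := w.flatMap fun x => [0, x + 3]

@[simp] theorem xr_nil : xr [] = [] := rfl
@[simp] theorem xl_nil : xl [] = [] := rfl
@[simp] theorem xr_cons (x : ℕ) (w : List ℕ) : xr (x :: w) = (x + 3) :: 0 :: xr w := rfl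
@[simp] theorem xl_cons (x : ℕ) (w : List ℕ) : xl (x :: w) = 0 :: (x + 3) :: xl w := rfl
theorem xr_append (v w : List ℕ) : xr (v ++ w) = xr v ++ xr w := by simp [xr]
theorem xl_append (v w : List ℕ) : xl (v ++ w) = xl v ++ xl w := by simp [xl]
theorem shift (w : List ℕ) : 0 :: xr w = xl w ++ [0] := by
  induction w with
  | nil => rfl
  | cons x w ih => simp [ih]

/-- the first lists of the new instance -/
def H' (H : List (List ℕ)) : List (List ℕ) := H.map xr ++ (H.map (fun w => 1 :: 0 :: xr w) ++ [[2], [2]])
/-- the second lists of the new instance -/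
def G' (G : List (List ℕ)) : List (List ℕ) := G.map xl ++ (G.map (fun w => 1 :: xl w) ++ [[0, 2], [0, 2]])

section

variable {H G : List (List ℕ)} (k : ℕ) (hH : H.length = k) (hG : G.length = k)

theorem app_append (L : List (List ℕ)) (u v : List ℕ) : app L (u ++ v) = app L u ++ app L v := by
  simp [app]

theorem app_single (L : List (List ℕ)) (a : ℕ) : app L [a] = L.getD a [] := by
  simp [app]

theorem app_cons (L : List (List ℕ)) (a : ℕ) (u : List ℕ) : app L (a :: u) = L.getD a [] ++ app L u := by
  simp [app]

include hH in
theorem H'_lt {i : ℕ} (hi : i < k) : (H' H).getD i [] = xr (H.getD i []) := by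
  subst hH
  unfold H'
  rw [List.getD_append _ _ _ _ (by simpa using hi), List.getD_eq_getElem _ _ (by simpa using hi),
    List.getD_eq_getElem _ _ hi]
  simp

include hH in
theorem H'_mid {i : ℕ} (hi : i < k) : (H' H).getD (k + i) [] = 1 :: 0 :: xr (H.getD i []) := by
  subst hH
  unfold H'
  rw [List.getD_append_right _ _ _ _ (by simp), List.getD_append _ _ _ _ (by simpa using hi),
    List.getD_eq_getElem _ _ (by simpa using hi), List.getD_eq_getElem _ _ hi]
  simp

include hH in
theorem H'_end {i : ℕ} (hi : i < 2) : (H' H).getD (k + k + i) [] = [2] := by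
  subst hH
  unfold H'
  rw [List.getD_append_right _ _ _ _ (by simp; omega), List.getD_append_right _ _ _ _ (by simp; omega)]
  have : H.length + H.length + i - (List.map xr H).length - (H.map (fun w => 1 :: 0 :: xr w)).length = i := by
    simp only [List.length_map]; omega
  rw [this]
  interval_cases i <;> rfl

include hG in
theorem G'_lt {i : ℕ} (hi : i < k) : (G' G).getD i [] = xl (G.getD i []) := by
  subst hG
  unfold G'
  rw [List.getD_append _ _ _ _ (by simpa using hi), List.getD_eq_getElem _ _ (by simpa using hi),
    List.getD_eq_getElem _ _ hi]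
  simp

include hG in
theorem G'_mid {i : ℕ} (hi : i < k) : (G' G).getD (k + i) [] = 1 :: xl (G.getD i []) := by
  subst hG
  unfold G'
  rw [List.getD_append_right _ _ _ _ (by simp), List.getD_append _ _ _ _ (by simpa using hi),
    List.getD_eq_getElem _ _ (by simpa using hi), List.getD_eq_getElem _ _ hi]
  simp

include hG in
theorem G'_end {i : ℕ} (hi : i < 2) : (G' G).getD (k + k + i) [] = [0, 2] := by
  subst hG
  unfold G'
  rw [List.getD_append_right _ _ _ _ (by simp; omega), List.getD_append_right _ _ _ _ (by simp; omega)]
  have : G.length + G.length + i - (List.map xl G).length - (G.map (fun w => 1 :: xl w)).length = i := by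
    simp only [List.length_map]; omega
  rw [this]
  interval_cases i <;> rfl

theorem length_H' : (H' H).length = H.length + H.length + 2 := by
  simp [H']; omega

theorem length_G' : (G' G).length = G.length + G.length + 2 := by
  simp [G']; omega

include hH in
theorem app_H'_lt {u : List ℕ} (hu : ∀ i ∈ u, i < k) : app (H' H) u = xr (app H u) := by
  induction u with
  | nil => rfl
  | cons a u ih =>
    rw [app_cons, app_cons, xr_append, ih (fun i hi => hu i (List.mem_cons_of_mem _ hi)),
      H'_lt k hH (hu a (List.mem_cons_self ..))]

include hG in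
theorem app_G'_lt {u : List ℕ} (hu : ∀ i ∈ u, i < k) : app (G' G) u = xl (app G u) := by
  induction u with
  | nil => rfl
  | cons a u ih =>
    rw [app_cons, app_cons, xl_append, ih (fun i hi => hu i (List.mem_cons_of_mem _ hi)),
      G'_lt k hG (hu a (List.mem_cons_self ..))]

include hH in
theorem app_H'_mid {a : ℕ} {u : List ℕ} (ha : a < k) (hu : ∀ i ∈ u, i < k) :
    app (H' H) ((k + a) :: u) = 1 :: (xl (app H (a :: u)) ++ [0]) := by
  rw [app_cons, H'_mid k hH ha, app_H'_lt k hH hu, ← shift, app_cons, xr_append]
  rfl

include hG in
theorem app_G'_mid {a : ℕ} {u : List ℕ} (ha : a < k) (hu : ∀ i ∈ u, i < k) :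
    app (G' G) ((k + a) :: u) = 1 :: xl (app G (a :: u)) := by
  rw [app_cons, G'_mid k hG ha, app_G'_lt k hG hu, app_cons, xl_append]
  rfl

theorem comp_xl {X Y : List ℕ} (hc : Comp (xl X ++ [0]) (xl Y)) : Comp X Y := by
  induction X generalizing Y with
  | nil => exact Or.inl (List.nil_prefix)
  | cons x X ih =>
    cases Y with
    | nil => exact Or.inr List.nil_prefix
    | cons y Y =>
      simp only [xl_cons, List.cons_append] at hc
      have hc' := comp_cons (comp_cons hc).2
      have h2 : x = y := by have := hc'.1; omega
      have hc2 := ih hc'.2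
      subst h2
      rcases hc2 with h | h
      · exact Or.inl ((List.cons_prefix_cons).2 ⟨rfl, h⟩)
      · exact Or.inr ((List.cons_prefix_cons).2 ⟨rfl, h⟩)

theorem not_comp_start {X Y R R' : List ℕ} : ¬ Comp (xl X ++ 0 :: 1 :: R) (xl Y ++ 1 :: R') := by
  induction X generalizing Y with
  | nil =>
    cases Y with
    | nil =>
      intro hc
      have := (comp_cons hc).1
      omega
    | cons y Y =>
      intro hc
      simp only [xl_nil, List.nil_append, xl_cons, List.cons_append] at hc
      have := (comp_cons (comp_cons hc).2).1
      omega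
  | cons x X ih =>
    cases Y with
    | nil =>
      intro hc
      simp only [xl_nil, List.nil_append, xl_cons, List.cons_append] at hc
      have := (comp_cons hc).1
      omega
    | cons y Y =>
      intro hc
      simp only [xl_cons, List.cons_append] at hc
      exact ih (comp_cons (comp_cons hc).2).2

theorem comp_end {X Y : List ℕ} (hc : Comp (xl X ++ [0, 2]) (xl Y ++ [0, 2])) : X = Y := by
  induction X generalizing Y with
  | nil =>
    cases Y with
    | nil => rfl
    | cons y Y =>
      simp only [xl_nil, List.nil_append, xl_cons, List.cons_append] at hc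
      have := (comp_cons (comp_cons hc).2).1
      omega
  | cons x X ih =>
    cases Y with
    | nil =>
      simp only [xl_nil, List.nil_append, xl_cons, List.cons_append] at hc
      have := (comp_cons (comp_cons hc).2).1
      omega
    | cons y Y =>
      simp only [xl_cons, List.cons_append] at hc
      obtain ⟨_, hc⟩ := comp_cons hc
      obtain ⟨h1, hc⟩ := comp_cons hc
      rw [ih hc]
      congr 1
      omega

theorem not_comp_first {X Y R R' : List ℕ} (hXY : X ≠ [] ∨ Y ≠ []) (a b : ℕ) (ha : a ≠ 0) (hb : b = 0 ∨ X ≠ [])
    (hb' : b < 3) :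
    ¬ Comp (xr X ++ a :: R) (xl Y ++ b :: R') := by
  intro hc
  cases X with
  | cons x X =>
    cases Y with
    | nil =>
      simp only [xr_cons, List.cons_append, xl_nil, List.nil_append] at hc
      have := (comp_cons hc).1
      omega
    | cons y Y =>
      simp only [xr_cons, List.cons_append, xl_cons] at hc
      have := (comp_cons hc).1
      omega
  | nil =>
    cases Y with
    | nil => simp at hXY
    | cons y Y =>
      simp only [xr_nil, List.nil_append, xl_cons, List.cons_append] at hc
      exact ha (comp_cons hc).1

include hH hG in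
/-- the form of the words with comparable images -/
theorem shape (hno : ¬ ∃ x : List ℕ, x ≠ [] ∧ (∀ i ∈ x, i < k) ∧ app H x = app G x) :
    ∀ v : List ℕ, v ≠ [] → (∀ i ∈ v, i < k + k + 2) → Comp (app (H' H) v) (app (G' G) v) →
      (∀ i ∈ v, i < k) ∨ ∃ a w, a < k ∧ (∀ i ∈ w, i < k) ∧ v = (k + a) :: w := by
  intro v
  induction v using List.reverseRecOn with
  | nil => intro h; exact absurd rfl h
  | append_singleton v c ih =>
    intro _ hv hc
    have hcl : c < k + k + 2 := hv c (by simp)
    have hc3 : c < k ∨ (∃ a, a < k ∧ c = k + a) ∨ ∃ a, a < 2 ∧ c = k + k + a := by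
      by_cases h1 : c < k
      · exact Or.inl h1
      · by_cases h2 : c < k + k
        · exact Or.inr (Or.inl ⟨c - k, by omega, by omega⟩)
        · exact Or.inr (Or.inr ⟨c - (k + k), by omega, by omega⟩)
    rcases eq_or_ne v [] with rfl | hv0
    · rcases hc3 with h1 | ⟨a, ha, rfl⟩ | ⟨a, ha, rfl⟩
      · left; simpa using h1
      · right; exact ⟨a, [], ha, by simp, rfl⟩
      · exfalso
        simp only [List.nil_append, app_single, H'_end k hH ha, G'_end k hG ha] at hc
        have := (comp_cons hc).1
        omega
    · have hv' : ∀ i ∈ v, i < k + k + 2 := fun i hi => hv i (by simp [hi])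
      have hcv : Comp (app (H' H) v) (app (G' G) v) := by
        rw [app_append, app_append] at hc
        exact comp_prefix hc
      rcases ih hv0 hv' hcv with hs | ⟨a, w, ha, hw, rfl⟩
      · have hne : app H v ≠ [] ∨ app G v ≠ [] := by
          by_contra hcon
          push Not at hcon
          exact hno ⟨v, hv0, hs, by rw [hcon.1, hcon.2]⟩
        rcases hc3 with h1 | ⟨b, hb, rfl⟩ | ⟨b, hb, rfl⟩
        · left
          intro i hi
          rcases List.mem_append.1 hi with hi | hi
          · exact hs i hi
          · rw [List.mem_singleton] at hi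
            omega
        · exfalso
          rw [app_append, app_append, app_single, app_single, H'_mid k hH hb, G'_mid k hG hb,
            app_H'_lt k hH hs, app_G'_lt k hG hs] at hc
          rcases eq_or_ne (app H v) [] with h0 | h0
          · rcases hY : app G v with _ | ⟨y, Y⟩
            · exact absurd hY (by rcases hne with h | h; exact absurd h0 h; exact h)
            · rw [h0, hY] at hc
              simp only [xr_nil, List.nil_append, xl_cons, List.cons_append] at hc
              have := (comp_cons hc).1
              omega
          · exact not_comp_first hne 1 1 (by norm_num) (Or.inr h0) (by norm_num) hc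
        · exfalso
          rw [app_append, app_append, app_single, app_single, H'_end k hH hb, G'_end k hG hb,
            app_H'_lt k hH hs, app_G'_lt k hG hs] at hc
          exact not_comp_first hne 2 0 (by norm_num) (Or.inl rfl) (by norm_num) hc
      · rcases hc3 with h1 | ⟨b, hb, rfl⟩ | ⟨b, hb, rfl⟩
        · right
          refine ⟨a, w ++ [c], ha, ?_, rfl⟩
          intro i hi
          rcases List.mem_append.1 hi with hi | hi
          · exact hw i hi
          · rw [List.mem_singleton] at hi
            omega
        · exfalso
          rw [app_append, app_append, app_single, app_single, H'_mid k hH hb, G'_mid k hG hb,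
            app_H'_mid k hH ha hw, app_G'_mid k hG ha hw] at hc
          simp only [List.cons_append, List.append_assoc, List.nil_append] at hc
          exact not_comp_start (comp_cons hc).2
        · exfalso
          rw [app_append, app_append, app_single, app_single, H'_end k hH hb, G'_end k hG hb,
            app_H'_mid k hH ha hw, app_G'_mid k hG ha hw] at hc
          simp only [List.cons_append, List.append_assoc, List.nil_append] at hc
          have h2 := comp_end (comp_cons hc).2
          refine hno ⟨a :: w, by simp, ?_, h2⟩
          intro i hi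
          rcases List.mem_cons.1 hi with rfl | hi
          · exact ha
          · exact hw i hi

theorem comp_xr_xl {X Y : List ℕ} (hc : Comp (xr X) (xl Y)) : Comp X Y := by
  cases X with
  | nil => exact Or.inl List.nil_prefix
  | cons x X =>
    cases Y with
    | nil => exact Or.inr List.nil_prefix
    | cons y Y =>
      simp only [xr_cons, xl_cons] at hc
      have := (comp_cons hc).1
      omega

include hH hG in
/-- without solutions the new instance has the unique equality continuation property -/
theorem uec_of_no (hno : ¬ ∃ x : List ℕ, x ≠ [] ∧ (∀ i ∈ x, i < k) ∧ app H x = app G x)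
    (huec : ∀ u : List ℕ, (∀ i ∈ u, i < k) → ∀ a b : ℕ, a < k → b < k → a ≠ b →
      Comp (app H (u ++ [a])) (app G (u ++ [a])) → Comp (app H (u ++ [b])) (app G (u ++ [b])) →
      app H u = app G u)
    (u : List ℕ) (hu : ∀ i ∈ u, i < k + k + 2) (a b : ℕ) (ha : a < k + k + 2) (hb : b < k + k + 2)
    (hab : a ≠ b) (h1 : Comp (app (H' H) (u ++ [a])) (app (G' G) (u ++ [a])))
    (h2 : Comp (app (H' H) (u ++ [b])) (app (G' G) (u ++ [b]))) : app (H' H) u = app (G' G) u := by
  rcases u with _ | ⟨c, w⟩
  · rfl
  exfalso
  have m1 : ∀ i ∈ (c :: w) ++ [a], i < k + k + 2 := by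
    intro i hi
    rcases List.mem_append.1 hi with hi | hi
    · exact hu i hi
    · rw [List.mem_singleton] at hi; omega
  have m2 : ∀ i ∈ (c :: w) ++ [b], i < k + k + 2 := by
    intro i hi
    rcases List.mem_append.1 hi with hi | hi
    · exact hu i hi
    · rw [List.mem_singleton] at hi; omega
  have s1 := shape k hH hG hno _ (by simp) m1 h1
  have s2 := shape k hH hG hno _ (by simp) m2 h2
  rcases s1 with s1 | ⟨a', w', ha', hw', e1⟩
  · have hcw : ∀ i ∈ c :: w, i < k := fun i hi => s1 i (List.mem_append_left _ hi)
    have hak : a < k := s1 a (by simp)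
    have hbk : b < k := by
      rcases s2 with s2 | ⟨b', w'', hb', _, e2⟩
      · exact s2 b (by simp)
      · exfalso
        rw [List.cons_append] at e2
        have := (List.cons.inj e2).1
        have := hcw c (by simp)
        omega
    have f1 : ∀ i ∈ (c :: w) ++ [b], i < k := by
      intro i hi
      rcases List.mem_append.1 hi with hi | hi
      · exact hcw i hi
      · rw [List.mem_singleton] at hi; omega
    rw [app_H'_lt k hH s1, app_G'_lt k hG s1] at h1
    rw [app_H'_lt k hH f1, app_G'_lt k hG f1] at h2
    exact hno ⟨c :: w, by simp, hcw, huec _ hcw a b hak hbk hab (comp_xr_xl h1) (comp_xr_xl h2)⟩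
  · rw [List.cons_append] at e1
    obtain ⟨rfl, rfl⟩ := List.cons.inj e1
    have hak : a < k := hw' a (by simp)
    have hwk : ∀ i ∈ w, i < k := fun i hi => hw' i (by simp [hi])
    have hbk : b < k := by
      rcases s2 with s2 | ⟨b', w'', hb', hw'', e2⟩
      · exfalso
        have := s2 (k + a') (by simp)
        omega
      · rw [List.cons_append] at e2
        obtain ⟨_, rfl⟩ := List.cons.inj e2
        exact hw'' b (by simp)
    have f1 : ∀ i ∈ w ++ [b], i < k := by
      intro i hi
      rcases List.mem_append.1 hi with hi | hi
      · exact hwk i hi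
      · rw [List.mem_singleton] at hi; omega
    rw [List.cons_append, app_H'_mid k hH ha' hw', app_G'_mid k hG ha' hw'] at h1
    rw [List.cons_append, app_H'_mid k hH ha' f1, app_G'_mid k hG ha' f1] at h2
    have c1 := comp_xl (comp_cons h1).2
    have c2 := comp_xl (comp_cons h2).2
    have f0 : ∀ i ∈ a' :: w, i < k := by
      intro i hi
      rcases List.mem_cons.1 hi with rfl | hi
      · exact ha'
      · exact hwk i hi
    exact hno ⟨a' :: w, by simp, f0, huec _ f0 a b hak hbk hab c1 c2⟩

include hH hG in
/-- with a solution the new instance does not have the unique equality continuation property -/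
theorem not_uec_of_yes (hyes : ∃ x : List ℕ, x ≠ [] ∧ (∀ i ∈ x, i < k) ∧ app H x = app G x) :
    ∃ u : List ℕ, (∀ i ∈ u, i < k + k + 2) ∧ ∃ a b : ℕ, a < k + k + 2 ∧ b < k + k + 2 ∧ a ≠ b ∧
      Comp (app (H' H) (u ++ [a])) (app (G' G) (u ++ [a])) ∧
      Comp (app (H' H) (u ++ [b])) (app (G' G) (u ++ [b])) ∧ app (H' H) u ≠ app (G' G) u := by
  obtain ⟨x, hx0, hx, hxe⟩ := hyes
  rcases x with _ | ⟨a, w⟩
  · exact absurd rfl hx0
  have ha : a < k := hx a (by simp)
  have hw : ∀ i ∈ w, i < k := fun i hi => hx i (by simp [hi])
  refine ⟨(k + a) :: w, ?_, k + k + 0, k + k + 1, by omega, by omega, by omega, ?_, ?_, ?_⟩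
  · intro i hi
    rcases List.mem_cons.1 hi with rfl | hi
    · omega
    · have := hw i hi; omega
  · rw [app_append, app_append, app_single, app_single, H'_end k hH (by norm_num), G'_end k hG (by norm_num),
      app_H'_mid k hH ha hw, app_G'_mid k hG ha hw, hxe]
    left
    simp
  · rw [app_append, app_append, app_single, app_single, H'_end k hH (by norm_num), G'_end k hG (by norm_num),
      app_H'_mid k hH ha hw, app_G'_mid k hG ha hw, hxe]
    left
    simp
  · rw [app_H'_mid k hH ha hw, app_G'_mid k hG ha hw, hxe]
    intro hcon
    have := congrArg List.length hcon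
    simp at this

end

/-! ### Computability of the transformation -/

theorem xr_primrec : Primrec xr := by
  unfold xr
  refine Primrec.list_flatMap Primrec.id ?_
  exact (Primrec.list_cons.comp (Primrec.nat_add.comp Primrec.snd (Primrec.const 3)) (Primrec.const [0])).to₂

theorem xl_primrec : Primrec xl := by
  unfold xl
  refine Primrec.list_flatMap Primrec.id ?_
  exact (Primrec.list_cons.comp (Primrec.const 0)
    (Primrec.list_cons.comp (Primrec.nat_add.comp Primrec.snd (Primrec.const 3)) (Primrec.const []))).to₂

theorem H'_primrec : Primrec H' := by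
  unfold H'
  refine Primrec.list_append.comp (Primrec.list_map Primrec.id (xr_primrec.comp Primrec.snd).to₂)
    (Primrec.list_append.comp (Primrec.list_map Primrec.id ?_) (Primrec.const _))
  exact (Primrec.list_cons.comp (Primrec.const 1)
    (Primrec.list_cons.comp (Primrec.const 0) (xr_primrec.comp Primrec.snd))).to₂

theorem G'_primrec : Primrec G' := by
  unfold G'
  refine Primrec.list_append.comp (Primrec.list_map Primrec.id (xl_primrec.comp Primrec.snd).to₂)
    (Primrec.list_append.comp (Primrec.list_map Primrec.id ?_) (Primrec.const _))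
  exact (Primrec.list_cons.comp (Primrec.const 1) (xl_primrec.comp Primrec.snd)).to₂

/-- pairing of the two lists -/
def zp (p : List (List ℕ) × List (List ℕ)) : Instance :=
  (List.range p.1.length).map fun i => (p.1.getD i [], p.2.getD i [])

theorem zp_primrec : Primrec zp := by
  unfold zp
  refine Primrec.list_map (Primrec.list_range.comp (Primrec.list_length.comp Primrec.fst)) ?_
  exact (Primrec.pair
    ((Primrec.list_getD []).comp (Primrec.fst.comp Primrec.fst) Primrec.snd)
    ((Primrec.list_getD []).comp (Primrec.snd.comp Primrec.fst) Primrec.snd)).to₂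

theorem length_zp (p : List (List ℕ) × List (List ℕ)) : (zp p).length = p.1.length := by
  simp [zp]

theorem h_zp (p : List (List ℕ) × List (List ℕ)) (u : List (Fin (zp p).length)) :
    h (zp p) u = app p.1 (u.map Fin.val) := by
  unfold h app
  rw [List.flatMap_map]
  congr 1
  funext c
  have : (zp p).get c = (p.1.getD c [], p.2.getD c []) := by
    rw [List.get_eq_getElem]
    simp only [zp, List.getElem_map, List.getElem_range]
  rw [this]

theorem g_zp (p : List (List ℕ) × List (List ℕ)) (u : List (Fin (zp p).length)) :
    g (zp p) u = app p.2 (u.map Fin.val) := by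
  unfold g app
  rw [List.flatMap_map]
  congr 1
  funext c
  have : (zp p).get c = (p.1.getD c [], p.2.getD c []) := by
    rw [List.get_eq_getElem]
    simp only [zp, List.getElem_map, List.getElem_range]
  rw [this]

theorem zp_uec (p : List (List ℕ) × List (List ℕ)) :
    IsUEC (zp p) ↔ ∀ u : List ℕ, (∀ i ∈ u, i < p.1.length) → ∀ a b : ℕ, a < p.1.length → b < p.1.length →
      a ≠ b → Comp (app p.1 (u ++ [a])) (app p.2 (u ++ [a])) →
      Comp (app p.1 (u ++ [b])) (app p.2 (u ++ [b])) → app p.1 u = app p.2 u := by
  constructor
  · intro hI u hu a b ha hb hab h1 h2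
    have hl := length_zp p
    obtain ⟨v, rfl⟩ : ∃ v : List (Fin (zp p).length), v.map Fin.val = u := by
      refine ⟨u.attach.map fun i => ⟨i.1, by rw [hl]; exact hu i.1 i.2⟩, ?_⟩
      rw [List.map_map]
      conv_rhs => rw [← List.attach_map_subtype_val u]
      rfl
    have := hI v ⟨a, by omega⟩ ⟨b, by omega⟩ (by simpa using hab)
    simp only [h_zp, g_zp, List.map_append, List.map_cons, List.map_nil] at this
    exact this h1 h2
  · intro hI u a b hab h1 h2
    have hl := length_zp p
    rw [h_zp, g_zp] at h1 h2 ⊢
    simp only [List.map_append, List.map_cons, List.map_nil] at h1 h2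
    refine hI _ ?_ a.1 b.1 (by have := a.2; omega) (by have := b.2; omega) (fun h => hab (Fin.ext h)) h1 h2
    intro i hi
    obtain ⟨j, _, rfl⟩ := List.mem_map.1 hi
    have := j.2
    omega

/-- **The theorem.** There is no algorithm which decides whether a given instance of PCP is a unique equality continuation
instance. The set of these instances is not even recursively enumerable. -/
theorem result : ¬ ComputablePred IsUEC ∧ ¬ REPred IsUEC := by
  have key : ¬ REPred IsUEC := by
    intro hre
    obtain ⟨F, hF, hlen, huec, hsol⟩ := Pool.Agent.S15446.family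
    apply Pool.Agent.Helper247.Univ.u_not_computable
    rw [ComputablePred.computable_iff_re_compl_re']
    refine ⟨Pool.Agent.Helper247.Univ.u_partrec.dom_re, ?_⟩
    have hT : Computable fun n => zp (H' (F n).1, G' (F n).2) :=
      zp_primrec.to_comp.comp (Computable.pair (H'_primrec.to_comp.comp (Computable.fst.comp hF))
        (G'_primrec.to_comp.comp (Computable.snd.comp hF)))
    have h1 : REPred fun n => IsUEC (zp (H' (F n).1, G' (F n).2)) := by
      unfold REPred at hre ⊢
      exact hre.comp hT
    refine h1.of_eq fun n => ?_
    rw [← hsol n, zp_uec]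
    simp only [length_H']
    constructor
    · intro hI hyes
      obtain ⟨u, hu, a, b, ha, hb, hab, c1, c2, hne⟩ := not_uec_of_yes (F n).1.length rfl (hlen n).symm hyes
      exact hne (hI u hu a b ha hb hab c1 c2)
    · intro hno u hu a b ha hb hab c1 c2
      exact uec_of_no (F n).1.length rfl (hlen n).symm hno (huec n) u hu a b ha hb hab c1 c2
  exact ⟨fun hc => key hc.to_re, key⟩

end Pool.Agent.Results.MP_c472bb_lc.Recognition
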